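import Pool.Agent.helper11.OFP.Spec

/-! Row ofp:LCJ (helper92). -/

set_option autoImplicit false

namespace Pool.Agent.OFP

open Pool.Agent.LOF MeasureTheory

theorem LCJ : LCJ_stmt := by
  intro r x s g hr h k
  exact hr (h * g) (k * g)

end Pool.Agent.OFP
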