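import Pool.Agent.helper11.OFP.Spec

/-! Row ofp:NAT (helper92). -/

set_option autoImplicit false

namespace Pool.Agent.OFP

open Pool.Agent.LOF MeasureTheory

private theorem NAT_coin (b : Bool) : coin {b} = 2⁻¹ := by
  unfold coin
  cases b
  · simp
  · simp

private theorem NAT_point (x : ℕ → Bool) : fair {x} = 0 := by
  have h : ∀ n : ℕ, fair {x} ≤ (2⁻¹ : ENNReal) ^ n := by
    intro n
    have h1 : fair (Set.pi (Finset.range n) fun i => {x i}) = ∏ i ∈ Finset.range n, coin {x i} := by
      unfold fair
      exact Measure.infinitePi_pi (μ := fun _ : ℕ => coin) (fun i _ => MeasurableSet.singleton _)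
    have h2 : ({x} : Set (ℕ → Bool)) ⊆ Set.pi (Finset.range n) fun i => {x i} := by
      intro y hy i _
      rw [Set.mem_singleton_iff] at hy
      rw [hy]
      exact Set.mem_singleton _
    refine (measure_mono h2).trans ?_
    rw [h1]
    simp only [NAT_coin, Finset.prod_const, Finset.card_range]
    exact le_rfl
  have h3 : Filter.Tendsto (fun n : ℕ => (2⁻¹ : ENNReal) ^ n) Filter.atTop (nhds 0) :=
    ENNReal.tendsto_pow_atTop_nhds_zero_of_lt_one (ENNReal.inv_lt_one.2 ENNReal.one_lt_two)
  exact le_antisymm (ge_of_tendsto' h3 h) zero_le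

theorem NAT : NAT_stmt := by
  intro S hS
  have h : S = ⋃ x ∈ S, {x} := by simp
  rw [h]
  exact (measure_biUnion_null_iff hS).2 fun x _ => NAT_point x

end Pool.Agent.OFP
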