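import Pool.Agent.helper11.OFP.Spec

/-! Row ofp:WIN (helper92). -/

set_option autoImplicit false

namespace Pool.Agent.OFP

open Pool.Agent.LOF MeasureTheory

theorem WIN (hCVC : CVC_stmt) : WIN_stmt := by
  intro r g hr a b ha hab hb
  have h0 : g.1.symm 0 = 0 := by
    rw [OrderIso.symm_apply_eq]
    exact (F.out g.2 (by simp)).symm
  have h1 : g.1.symm 1 = 1 := by
    rw [OrderIso.symm_apply_eq]
    exact (F.out g.2 (by simp)).symm
  obtain ⟨C, hC, hC1, hC2, t, ht, hat, htb⟩ := hr (g.1.symm a) (g.1.symm b)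
    (by rw [← h0]; exact g.1.symm.monotone ha) (g.1.symm.strictMono hab)
    (by rw [← h1]; exact g.1.symm.monotone hb)
  obtain ⟨hv, -⟩ := hCVC r g
  obtain ⟨hv1, hv2⟩ := hv C
  refine ⟨C.map (MulAut.conj g).toMonoidHom, hv1.2 hC, ?_, ?_, g.1 t, ?_, ?_, ?_⟩
  · intro h
    exact hC1 ((Subgroup.map_eq_bot_iff_of_injective C (MulAut.conj g).injective).1 h)
  · rw [hv2]
    exact hC2.image _
  · rw [hv2]
    exact Set.mem_image_of_mem _ ht
  · exact (OrderIso.symm_apply_lt _).1 hat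
  · exact (OrderIso.lt_symm_apply _).1 htb

end Pool.Agent.OFP
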