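import Pool.Agent.helper11.OFP.Spec

/-! Row ofp:XSF (helper92). -/

set_option autoImplicit false

namespace Pool.Agent.OFP

open Pool.Agent.LOF MeasureTheory

/-- left end point of the path interval -/
private noncomputable def XSF_P (c : ℕ → Bool) (i : ℕ) : ℝ := (pth c i : ℝ) / 2 ^ (2 * i)

/-- relative position -/
private noncomputable def XSF_v (ci b : Bool) (q : ℝ) : ℝ :=
  if b = ci then (if b = true then q / 2 else (1 + q) / 2) else (if b = true then q / 4 else (3 + q) / 4)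

private theorem XSF_succ (c : ℕ → Bool) (i : ℕ) :
    XSF_P c (i + 1) = XSF_P c i + (if c i = true then 1 / 2 else 1 / 4) / 2 ^ (2 * i) := by
  unfold XSF_P
  have h1 : (2 : ℝ) ^ (2 * (i + 1)) = 4 * 2 ^ (2 * i) := by rw [mul_add, pow_add]; ring
  have h2 : (2 : ℝ) ^ (2 * i) ≠ 0 := by positivity
  rw [h1, pth]
  by_cases hc : c i = true
  · rw [if_pos hc, if_pos hc]
    push_cast
    field_simp
    ring
  · rw [if_neg hc, if_neg hc]
    push_cast
    field_simp

private theorem XSF_pnt (q : ℕ → ℝ) (c : ℕ → Bool) (i j : ℕ) (b : Bool) :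
    pnt q c (i, j, b) = XSF_P c i + XSF_v (c i) b (q j) / 2 ^ (2 * i) := by
  unfold pnt XSF_P XSF_v num lev
  have h1 : (2 : ℝ) ^ (2 * i + 1) = 2 * 2 ^ (2 * i) := by rw [pow_add]; ring
  have h3 : (2 : ℝ) ^ (2 * i + 2) = 4 * 2 ^ (2 * i) := by rw [pow_add]; ring
  have h2 : (2 : ℝ) ^ (2 * i) ≠ 0 := by positivity
  simp only
  by_cases hb : b = c i
  · rw [if_pos hb, if_pos hb, if_pos hb]
    by_cases hbt : b = true
    · rw [if_pos hbt, if_pos hbt, h1]
      push_cast
      field_simp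
    · rw [if_neg hbt, if_neg hbt, h1]
      push_cast
      field_simp
      ring
  · rw [if_neg hb, if_neg hb, if_neg hb]
    by_cases hbt : b = true
    · rw [if_pos hbt, if_pos hbt, h3]
      push_cast
      field_simp
    · rw [if_neg hbt, if_neg hbt, h3]
      push_cast
      field_simp
      ring

private theorem XSF_v01 (ci b : Bool) (q : ℝ) (h0 : 0 < q) (h1 : q < 1) : 0 ≤ XSF_v ci b q ∧ XSF_v ci b q ≤ 1 := by
  unfold XSF_v
  split_ifs <;> constructor <;> linarith

private theorem XSF_nest (c : ℕ → Bool) (M k : ℕ) : XSF_P c M ≤ XSF_P c (M + k) ∧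
    XSF_P c (M + k) + 1 / 2 ^ (2 * (M + k)) ≤ XSF_P c M + 1 / 2 ^ (2 * M) := by
  induction k with
  | zero => exact ⟨le_rfl, le_rfl⟩
  | succ k ih =>
    rw [← add_assoc, XSF_succ]
    have h1 : (2 : ℝ) ^ (2 * (M + k + 1)) = 4 * 2 ^ (2 * (M + k)) := by rw [mul_add, pow_add]; ring
    rw [h1]
    have h2 : (0 : ℝ) < 1 / 2 ^ (2 * (M + k)) := by positivity
    have h3 : (1 : ℝ) / (4 * 2 ^ (2 * (M + k))) = 1 / 4 * (1 / 2 ^ (2 * (M + k))) := by
      field_simp
    have h4 : (if c (M + k) = true then (1 / 2 : ℝ) else 1 / 4) / 2 ^ (2 * (M + k)) =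
        (if c (M + k) = true then (1 / 2 : ℝ) else 1 / 4) * (1 / 2 ^ (2 * (M + k))) := by
      field_simp
    rw [h3, h4]
    obtain ⟨ih1, ih2⟩ := ih
    split_ifs <;> constructor <;> linarith

private theorem XSF_X0a (u : ℝ) (h0 : 0 ≤ u) (h1 : u ≤ 1 / 2) : X0 u = u / 2 := by
  rw [X0_apply]
  split_ifs <;> linarith

private theorem XSF_X0b (u : ℝ) (h0 : 1 / 2 ≤ u) (h1 : u ≤ 3 / 4) : X0 u = u - 1 / 4 := by
  rw [X0_apply]
  split_ifs <;> linarith

private theorem XSF_X0c (u : ℝ) (h0 : 3 / 4 ≤ u) (h1 : u ≤ 1) : X0 u = 2 * u - 1 := by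
  rw [X0_apply]
  split_ifs <;> linarith

/-- the path does not change up to `N` -/
private theorem XSF_low (c : ℕ → Bool) (N : ℕ) (b : Bool) (i : ℕ) (hi : i ≤ N) :
    XSF_P (Function.update c N b) i = XSF_P c i := by
  induction i with
  | zero => rfl
  | succ i ih =>
    rw [XSF_succ, XSF_succ, ih (by omega), Function.update_of_ne (by omega)]

/-- after `N` it is translated -/
private theorem XSF_high (c : ℕ → Bool) (N : ℕ) (hc : c N = true) (k : ℕ) :
    XSF_P (Function.update c N false) (N + 1 + k) = XSF_P c (N + 1 + k) - 1 / 4 / 2 ^ (2 * N) := by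
  induction k with
  | zero =>
    rw [add_zero, XSF_succ, XSF_succ, XSF_low c N false N le_rfl, Function.update_self, hc]
    simp only [Bool.false_eq_true, if_false, if_true]
    ring
  | succ k ih =>
    rw [← add_assoc, XSF_succ, XSF_succ, ih, Function.update_of_ne (by omega)]
    ring

private theorem XSF_core (hGEN : GEN_stmt) (q : ℕ → ℝ) (c : ℕ → Bool) (N : ℕ) (hq : ∀ n, 0 < q n ∧ q n < 1)
    (hc : c N = true) : ∃ g : F, ∀ i j b, g.1 (pnt q c (i, j, b)) = pnt q (Function.update c N false) (i, j, b) := by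
  have hP0 : XSF_P c 0 = 0 := by simp [XSF_P, pth]
  have hn := XSF_nest c 0 N
  rw [hP0] at hn
  simp only [Nat.zero_add, Nat.mul_zero, pow_zero] at hn
  have hpos : (0 : ℝ) < 2 ^ (2 * N) := by positivity
  obtain ⟨g, hg1, hg2⟩ := hGEN (XSF_P c N) (2 * N) ⟨(pth c N : ℤ), 2 * N, by simp [XSF_P]⟩ hn.1 (by linarith [hn.2])
  refine ⟨g, fun i j b => ?_⟩
  obtain ⟨hq0, hq1⟩ := hq j
  rcases lt_trichotomy i N with hi | hi | hi
  · -- earlier siblings
    have e1 : pnt q (Function.update c N false) (i, j, b) = pnt q c (i, j, b) := by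
      rw [XSF_pnt, XSF_pnt, XSF_low c N false i hi.le, Function.update_of_ne hi.ne]
    rw [e1]
    refine hg1 _ ?_
    obtain ⟨k, rfl⟩ := Nat.exists_eq_add_of_le (show i + 1 ≤ N from hi)
    have h3 := XSF_nest c (i + 1) k
    rw [XSF_succ] at h3
    have h4 : (2 : ℝ) ^ (2 * (i + 1)) = 4 * 2 ^ (2 * i) := by rw [mul_add, pow_add]; ring
    rw [h4] at h3
    have h5 : (0 : ℝ) < 1 / 2 ^ (2 * i) := by positivity
    have h6 : (1 : ℝ) / (4 * 2 ^ (2 * i)) = 1 / 4 * (1 / 2 ^ (2 * i)) := by field_simp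
    have h7 : (if c i = true then (1 / 2 : ℝ) else 1 / 4) / 2 ^ (2 * i) =
        (if c i = true then (1 / 2 : ℝ) else 1 / 4) * (1 / 2 ^ (2 * i)) := by field_simp
    have h8 : XSF_v (c i) b (q j) / 2 ^ (2 * i) = XSF_v (c i) b (q j) * (1 / 2 ^ (2 * i)) := by field_simp
    rw [h6, h7] at h3
    rw [XSF_pnt, h8]
    obtain ⟨h3a, h3b⟩ := h3
    have hx : 0 < q j * (1 / 2 ^ (2 * i)) := mul_pos hq0 h5
    have hy : q j * (1 / 2 ^ (2 * i)) < 1 / 2 ^ (2 * i) := by
      have := mul_lt_mul_of_pos_right hq1 h5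
      linarith
    set w : ℝ := 1 / 2 ^ (2 * i) with hw
    unfold XSF_v
    cases hci : c i <;> cases b
    · right
      simp only [hci, Bool.false_eq_true, if_true, if_false] at h3a h3b ⊢
      linarith
    · left
      simp only [hci, Bool.true_eq_false, Bool.false_eq_true, if_true, if_false] at h3a h3b ⊢
      linarith
    · right
      simp only [hci, Bool.false_eq_true, if_true, if_false] at h3a h3b ⊢
      linarith
    · left
      simp only [hci, if_true] at h3a h3b ⊢
      linarith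
  · -- the sibling of index `N`
    subst hi
    obtain ⟨v0, v1⟩ := XSF_v01 (c i) b (q j) hq0 hq1
    rw [XSF_pnt, XSF_pnt, XSF_low c i false i le_rfl, Function.update_self, hg2 _ v0 v1, hc]
    unfold XSF_v
    cases b
    · simp only [Bool.false_eq_true, if_true, if_false]
      rw [XSF_X0c _ (by linarith) (by linarith)]
      ring
    · simp only [Bool.true_eq_false, if_true, if_false]
      rw [XSF_X0a _ (by linarith) (by linarith)]
      ring
  · -- later siblings
    obtain ⟨k, rfl⟩ := Nat.exists_eq_add_of_le (show N + 1 ≤ i from hi)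
    obtain ⟨v0, v1⟩ := XSF_v01 (c (N + 1 + k)) b (q j) hq0 hq1
    have e1 : pnt q (Function.update c N false) (N + 1 + k, j, b) =
        pnt q c (N + 1 + k, j, b) - 1 / 4 / 2 ^ (2 * N) := by
      rw [XSF_pnt, XSF_pnt, XSF_high c N hc, Function.update_of_ne (by omega)]
      ring
    rw [e1]
    have h3 := XSF_nest c (N + 1) k
    rw [XSF_succ c N, if_pos hc] at h3
    have h4 : (2 : ℝ) ^ (2 * (N + 1)) = 4 * 2 ^ (2 * N) := by rw [mul_add, pow_add]; ring
    rw [h4] at h3
    have h6 : (1 : ℝ) / (4 * 2 ^ (2 * N)) = 1 / 4 * (1 / 2 ^ (2 * N)) := by field_simp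
    have h7 : (1 / 2 : ℝ) / 2 ^ (2 * N) = 1 / 2 * (1 / 2 ^ (2 * N)) := by field_simp
    rw [h6, h7] at h3
    obtain ⟨h3a, h3b⟩ := h3
    have h9 : (0 : ℝ) < 2 ^ (2 * (N + 1 + k)) := by positivity
    have hlow : XSF_P c (N + 1 + k) ≤ pnt q c (N + 1 + k, j, b) := by
      rw [XSF_pnt]
      have := div_nonneg v0 h9.le
      linarith
    have hup : pnt q c (N + 1 + k, j, b) ≤ XSF_P c (N + 1 + k) + 1 / 2 ^ (2 * (N + 1 + k)) := by
      rw [XSF_pnt]
      have := div_le_div_of_nonneg_right v1 h9.le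
      linarith
    set x : ℝ := pnt q c (N + 1 + k, j, b) with hx
    set u : ℝ := (x - XSF_P c N) * 2 ^ (2 * N) with hu
    have hxu : x = XSF_P c N + u / 2 ^ (2 * N) := by
      rw [hu]
      field_simp
      ring
    have hu1 : 1 / 2 ≤ u := by
      have h10 : 1 / 2 * (1 / 2 ^ (2 * N)) ≤ x - XSF_P c N := by linarith
      have h11 := mul_le_mul_of_nonneg_right h10 hpos.le
      have h12 : (1 / 2 : ℝ) * (1 / 2 ^ (2 * N)) * 2 ^ (2 * N) = 1 / 2 := by field_simp
      rw [h12] at h11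
      exact h11
    have hu2 : u ≤ 3 / 4 := by
      have h10 : x - XSF_P c N ≤ 3 / 4 * (1 / 2 ^ (2 * N)) := by linarith
      have h11 := mul_le_mul_of_nonneg_right h10 hpos.le
      have h12 : (3 / 4 : ℝ) * (1 / 2 ^ (2 * N)) * 2 ^ (2 * N) = 3 / 4 := by field_simp
      rw [h12] at h11
      exact h11
    rw [hxu, hg2 u (by linarith) (by linarith), XSF_X0b u hu1 hu2]
    ring

theorem XSF (hGEN : GEN_stmt) : XSF_stmt := by
  intro q c N hq
  cases hc : c N
  · -- use the inverse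
    have hc' : Function.update c N true N = true := Function.update_self ..
    obtain ⟨g, hg⟩ := XSF_core hGEN q (Function.update c N true) N hq.1 hc'
    have e : Function.update (Function.update c N true) N false = c := by
      rw [Function.update_idem, ← hc, Function.update_eq_self]
    rw [e] at hg
    refine ⟨g⁻¹, fun n => ?_⟩
    show (g.1⁻¹ : ℝ ≃o ℝ) (pnt q c (dec n)) = pnt q (Function.update c N (!false)) (dec n)
    exact g.1.symm_apply_eq.2 (hg (dec n).1 (dec n).2.1 (dec n).2.2).symm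
  · obtain ⟨g, hg⟩ := XSF_core hGEN q c N hq.1 hc
    exact ⟨g, fun n => hg (dec n).1 (dec n).2.1 (dec n).2.2⟩

end Pool.Agent.OFP
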